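import Pool.Agent.Lib.MP_140c34_gt.Arb.QLift
import Pool.Agent.Lib.MP_140c34_gt.Arb.ExE
import Pool.Agent.Lib.MP_140c34_gt.Arb.ExF

namespace Pool.Agent.Results.MP_140c34_gt.Arborescent

open Pool.Agent.Lib.MP_140c34_gt.Arb

/-- An oriented diagram of an arborescent (Conway algebraic) link whose HOMFLYPT polynomial has the
same Jones specialisation as `((v⁻¹ - v) / z) ^ m` is carried to `m + 1` disjoint circles by planar
isotopies and Reidemeister moves. -/
theorem result (D : List OGen) (hc : dirs D [] = some []) (X : Alg)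
    (hD : Eqv 0 (D.map OGen.forget) X.num) (m : ℕ)
    (h : jones (homflypt D) = jones ((vz (-1) (-1) - vz 1 (-1)) ^ m)) :
    Eqv 0 (D.map OGen.forget) (List.replicate (m + 1) [Gen.cup 0, Gen.cap 0]).flatten :=
  unlink_of_eqv (Classical.epsilon_spec exists_homflypt) D hc X hD m h

end Pool.Agent.Results.MP_140c34_gt.Arborescent
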