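import Pool.Agent.Lib.MP_140c34_gt.Color

/-! A Brunnian link with a non-zero Milnor number does not have the HOMFLYPT polynomial of the
unlink. -/

namespace Pool.Agent.Results.MP_140c34_gt.Brunnian

open Pool.Agent.Lib.MP_140c34_gt

theorem result {m k : ℕ} (hk : 2 ≤ k) (W : FreeGroup (Fin m ⊕ Fin k))
    (hW : Function.Injective fun i : Fin (m + 1) => ((track W ^ (i : ℕ)) (0, 1)).1)
    (hB : ∀ S, S ≠ Finset.univ → Relation.EqvGen Move (m + 1 + k, mixed S W) (k + 1, 1))
    (π : Equiv.Perm (Fin k)) (hμ : milnor π ((track W ^ (m + 1)) (0, 1)).2 ≠ 0) :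
    homfly (m + 1 + k) (mixed Finset.univ W) ≠ ((mon (-1) 0 - mon 1 0) * mon 0 (-1)) ^ k := by
  have hP : IsHomfly homfly := Classical.epsilon_spec exists_homfly
  have inv : ∀ a b : ℕ × Br, Relation.EqvGen Move a b → homfly a.1 a.2 = homfly b.1 b.2 := by
    intro a b h
    induction h with
    | refl => rfl
    | symm _ _ _ h => exact h.symm
    | trans _ _ _ _ _ h h' => exact h.trans h'
    | rel a b h =>
      cases h with
      | conj hx hy => exact hP.conj _ _ hx _ hy
      | pos hx => exact (hP.stab _ _ hx).1.symm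
      | neg hx => exact (hP.stab _ _ hx).2.symm
  have unl : ∀ n, homfly (n + 1) 1 = ((mon (-1) 0 - mon 1 0) * mon 0 (-1)) ^ n := by
    intro n
    induction n with
    | zero => simpa using hP.unk
    | succ n ih =>
      have h := hP.free (n := n) (one_mem _)
      have e : mon 0 (-1) * mon 0 1 = 1 := by
        simp [mon, AddMonoidAlgebra.single_mul_single, AddMonoidAlgebra.one_def, Prod.mk_zero_zero]
      rw [pow_succ', ← ih]
      linear_combination (-mon 0 (-1)) * h - homfly (n + 2) 1 * e
  intro h
  refine hμ (main hP hk W hW (fun j => kill_of_move W hW j (hB _ ?_))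
    (((mon (-1) 0 - mon 1 0) * mon 0 (-1)) ^ k) (fun S => ?_) π)
  · exact (Finset.erase_ssubset (Finset.mem_univ j)).ne
  · by_cases e : S = Finset.univ
    · rw [e, h]
    · exact (inv _ _ (hB S e)).trans (unl k)

end Pool.Agent.Results.MP_140c34_gt.Brunnian
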